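import Pool.Agent.Q52.TR.Core

/-!
# Undirected non-strict temporal graphs without directed simple realisations

For every `r` we give an undirected temporal graph on `9 r` vertices, with at most two labels on each
edge, such that each directed temporal graph, proper or not, with the same reachability graph
(non-strict temporal paths) has at least `r` arcs with two or more labels.  For `r = 1` this answers
the question: the nine-vertex graph has no reachability equivalent directed temporal graph which is
simple, and in particular none which is directed, proper and simple.  So also no bounded number of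
arcs with several labels is sufficient for a realisation by directed proper temporal graphs.

The graph consists of `r` disjoint rings of three cells `a_i, b_i, c_i` (`i` modulo 3).  The edge
`a_i c_i` has the two labels 1 and 4, the edge `b_i a_{i+1}` has the label 2 and the edge `b_i c_i` has
the label 3.  (One ring is the graph of `MP_b998f6_co.TwinRing`.)

Proof.  Let `H` have the same reachability graph as one ring, with at most one label on each arc.
The vertices `a = a_i` and `c = c_i` are twins of the reachability graph, `d = b_{i-1}` reaches both of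
them and both of them reach `b = b_i`, but `d` does not reach `b`.  The only vertices between these
are `a` and `c`.  If there were no vertex `x` of `a`, `c` such that both arcs `d x` and `x b` are present in
`H`, then, for instance, `d a` and `c b` are present and the paths from `a` to `b` and from `d` to `c` both
use the arc `a c`, which has only one label, and `d, a, c, b` is a temporal path.  So there is such an
`x = x_i`, and the label of `d x_i` is greater than the one of `x_i b`.  As `x_i` does not reach
`x_{i+1}`, the label of `x_i b_i` is greater than the one of `b_i x_{i+1}`.  So the labels decrease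
around the ring, a contradiction.  In the disjoint union of `r` rings the arcs of a directed graph with
the same reachability graph join vertices of the same ring, and in every ring there must be an arc
with two labels.
-/

set_option autoImplicit false

namespace Pool.Agent.Results.MP_352b69_co.ManyMultipleLabels

/-- An undirected temporal graph on the vertex type `V`: every unordered pair of distinct vertices
carries a finite set of time labels, and the edges are the pairs whose label set is nonempty. -/
structure UndirectedTG (V : Type) where
  /-- the set of time labels of a pair -/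
  lab : V → V → Finset ℕ
  symm : ∀ u v, lab u v = lab v u
  irrefl : ∀ v, lab v v = ∅

/-- A directed temporal graph on the vertex type `V`: every ordered pair of distinct vertices
carries a finite set of time labels, and the arcs are the pairs whose label set is nonempty. -/
structure DirectedTG (V : Type) where
  /-- the set of time labels of an ordered pair -/
  lab : V → V → Finset ℕ
  irrefl : ∀ v, lab v v = ∅

/-- A directed temporal graph is simple if every arc carries exactly one label. -/
def DirectedTG.IsSimple {W : Type} (H : DirectedTG W) : Prop :=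
  ∀ u v, (H.lab u v).Nonempty → (H.lab u v).card = 1

/-- A directed temporal graph is proper if no label of an arc `(u, v)` is a label of an arc
`(v, x)`. -/
def DirectedTG.IsProper {W : Type} (H : DirectedTG W) : Prop :=
  ∀ u v x, ∀ t ∈ H.lab u v, ∀ t' ∈ H.lab v x, t ≠ t'

/-- There is a non-strict temporal path from `u` to `v`: distinct vertices
`u = p 0, p 1, …, p k = v` and times `t 0 ≤ t 1 ≤ … ≤ t (k-1)` with `t i` a label of the step from
`p i` to `p (i+1)`. -/
def Reach {V : Type} (lab : V → V → Finset ℕ) (u v : V) : Prop :=
  ∃ (k : ℕ) (p : ℕ → V) (t : ℕ → ℕ), p 0 = u ∧ p k = v ∧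
    (∀ i j, i ≤ k → j ≤ k → p i = p j → i = j) ∧
    (∀ i, i < k → t i ∈ lab (p i) (p (i + 1))) ∧ (∀ i, i + 1 < k → t i ≤ t (i + 1))

/-- The two reachability graphs (arcs `u → v`, `u ≠ v`, with a temporal path from `u` to `v`) are
isomorphic. -/
def ReachEquivalent {V W : Type} (G : UndirectedTG V) (H : DirectedTG W) : Prop :=
  ∃ e : V ≃ W, ∀ u v, u ≠ v → (Reach G.lab u v ↔ Reach H.lab (e u) (e v))

/-- The number of arcs with two or more labels. -/
noncomputable def DirectedTG.multiple {W : Type} (H : DirectedTG W) : ℕ :=
  Set.ncard {q : W × W | 2 ≤ (H.lab q.1 q.2).card}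

section proof

open Pool.Agent.Q52.TR (lab9 inBy no_lab)

/-- A shortest temporal walk is a path. -/
lemma reach_iff {V : Type} (lab : V → V → Finset ℕ) (u v : V) :
    Reach lab u v ↔ Pool.Agent.Q52.TR.Reach lab u v := by
  classical
  constructor
  · rintro ⟨k, p, t, h0, h1, -, h2, h3⟩
    exact ⟨k, p, t, h0, h1, h2, h3⟩
  · intro h
    have hex : ∃ k : ℕ, ∃ (p : ℕ → V) (t : ℕ → ℕ), p 0 = u ∧ p k = v ∧
        (∀ i, i < k → t i ∈ lab (p i) (p (i + 1))) ∧ (∀ i, i + 1 < k → t i ≤ t (i + 1)) := h
    obtain ⟨p, t, h0, h1, h2, h3⟩ := Nat.find_spec hex
    have hmin : ∀ m, m < Nat.find hex → ¬ ∃ (p : ℕ → V) (t : ℕ → ℕ), p 0 = u ∧ p m = v ∧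
        (∀ i, i < m → t i ∈ lab (p i) (p (i + 1))) ∧ (∀ i, i + 1 < m → t i ≤ t (i + 1)) :=
      fun m hm => Nat.find_min hex hm
    revert hmin h1 h2 h3
    generalize Nat.find hex = k
    intro h1 h2 h3 hmin
    have hlt : ∀ i j, i < j → j ≤ k → p i ≠ p j := by
      intro i j hij hjk heq
      apply hmin (k - (j - i)) (by omega)
      refine ⟨fun n => if n ≤ i then p n else p (n + (j - i)),
        fun n => if n < i then t n else t (n + (j - i)), by simp [h0], ?_, ?_, ?_⟩
      · by_cases hk : k - (j - i) ≤ i
        · have e1 : k = j := by omega
          have e2 : k - (j - i) = i := by omega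
          simp only [e2, le_refl, if_true]
          rw [heq, ← e1, h1]
        · have e2 : k - (j - i) + (j - i) = k := by omega
          simp only [hk, if_false, e2, h1]
      · intro n hn
        rcases lt_trichotomy n i with hni | hni | hni
        · have e1 : n ≤ i := by omega
          have e2 : n + 1 ≤ i := by omega
          simp only [hni, e1, e2, if_true]
          exact h2 n (by omega)
        · subst hni
          have e1 : ¬ n < n := by omega
          have e2 : ¬ n + 1 ≤ n := by omega
          have e3 : n + (j - n) = j := by omega
          have e4 : n + 1 + (j - n) = j + 1 := by omega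
          simp only [e1, e2, le_refl, if_true, if_false, e3, e4, heq]
          exact h2 j (by omega)
        · have e1 : ¬ n < i := by omega
          have e2 : ¬ n ≤ i := by omega
          have e3 : ¬ n + 1 ≤ i := by omega
          have e4 : n + 1 + (j - i) = n + (j - i) + 1 := by omega
          simp only [e1, e2, e3, if_false, e4]
          exact h2 _ (by omega)
      · intro n hn
        rcases lt_trichotomy (n + 1) i with hni | hni | hni
        · have e1 : n < i := by omega
          simp only [hni, e1, if_true]
          exact h3 n (by omega)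
        · have e1 : n < i := by omega
          have e2 : ¬ n + 1 < i := by omega
          simp only [e1, e2, if_true, if_false]
          exact Pool.Agent.Q52.TR.mono_of_steps h3 _ _ (by omega) (by omega)
        · have e1 : ¬ n < i := by omega
          have e2 : ¬ n + 1 < i := by omega
          have e4 : n + 1 + (j - i) = n + (j - i) + 1 := by omega
          simp only [e1, e2, if_false, e4]
          exact h3 _ (by omega)
    refine ⟨k, p, t, h0, h1, ?_, h2, h3⟩
    intro i j hi hj heq
    by_contra hne
    rcases lt_or_gt_of_ne hne with h | h
    · exact hlt i j h hj heq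
    · exact hlt j i h hi heq.symm

/-- `r` disjoint rings -/
def rings (r : ℕ) : UndirectedTG (Fin r × Fin 9) where
  lab := fun u v => if u.1 = v.1 then lab9 u.2 v.2 else ∅
  symm := by
    intro u v
    have h : ∀ x y : Fin 9, lab9 x y = lab9 y x := by decide
    by_cases huv : u.1 = v.1
    · rw [if_pos huv, if_pos huv.symm, h]
    · rw [if_neg huv, if_neg fun h => huv h.symm]
  irrefl := by
    intro v
    have h : ∀ x : Fin 9, lab9 x x = ∅ := by decide
    rw [if_pos rfl, h]

lemma rings_card (r : ℕ) (u v : Fin r × Fin 9) : ((rings r).lab u v).card ≤ 2 := by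
  have h : ∀ x y : Fin 9, (lab9 x y).card ≤ 2 := by decide
  change (if u.1 = v.1 then lab9 u.2 v.2 else ∅ : Finset ℕ).card ≤ 2
  split_ifs
  · exact h _ _
  · simp

lemma rings_fst {r : ℕ} {u v : Fin r × Fin 9} {s : ℕ} (h : s ∈ (rings r).lab u v) :
    u.1 = v.1 ∧ s ∈ lab9 u.2 v.2 := by
  change s ∈ (if u.1 = v.1 then lab9 u.2 v.2 else ∅ : Finset ℕ) at h
  split_ifs at h with h1
  · exact ⟨h1, h⟩
  · simp at h

lemma rings_reach {r : ℕ} {u v : Fin r × Fin 9}
    (h : Pool.Agent.Q52.TR.Reach (rings r).lab u v) :
    u.1 = v.1 ∧ Pool.Agent.Q52.TR.Reach lab9 u.2 v.2 := by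
  obtain ⟨k, p, t, h0, h1, h2, h3⟩ := h
  have hc : ∀ n, n ≤ k → (p n).1 = u.1 := by
    intro n
    induction n with
    | zero => intro _; rw [h0]
    | succ n ih => intro hn; rw [← ih (by omega), (rings_fst (h2 n (by omega))).1]
  refine ⟨by rw [← hc k le_rfl, h1], k, fun n => (p n).2, t, by simp [h0], by simp [h1], ?_, h3⟩
  intro i hi
  exact (rings_fst (h2 i hi)).2

lemma reach_rings {r : ℕ} (i : Fin r) {x y : Fin 9} (h : Pool.Agent.Q52.TR.Reach lab9 x y) :
    Pool.Agent.Q52.TR.Reach (rings r).lab (i, x) (i, y) := by
  obtain ⟨k, p, t, h0, h1, h2, h3⟩ := h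
  refine ⟨k, fun n => (i, p n), t, by simp [h0], by simp [h1], ?_, h3⟩
  intro n hn
  change t n ∈ (if i = i then lab9 (p n) (p (n + 1)) else ∅ : Finset ℕ)
  rw [if_pos rfl]
  exact h2 n hn

lemma ring_multiple {r : ℕ} {W : Type} (H : DirectedTG W) (e : (Fin r × Fin 9) ≃ W)
    (he : ∀ u v, u ≠ v → (Reach (rings r).lab u v ↔ Reach H.lab (e u) (e v))) (i : Fin r) :
    ∃ x y : Fin 9, 2 ≤ (H.lab (e (i, x)) (e (i, y))).card := by
  by_contra hcon
  push Not at hcon
  refine no_lab (fun x y => H.lab (e (i, x)) (e (i, y))) (fun x y => by
    have := hcon x y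
    omega) ?_
  intro x y hxy
  have hne : ((i, x) : Fin r × Fin 9) ≠ (i, y) := fun h => hxy (congrArg Prod.snd h)
  rw [← Pool.Agent.Q52.TR.reach_iff]
  constructor
  · rintro ⟨k, p, t, h0, h1, h2, h3⟩
    have h4 : Pool.Agent.Q52.TR.Reach H.lab (e (i, x)) (e (i, y)) :=
      ⟨k, fun n => e (i, p n), t, by simp [h0], by simp [h1], h2, h3⟩
    rw [← reach_iff, ← he _ _ hne, reach_iff] at h4
    exact (rings_reach h4).2
  · intro h
    have h4 := reach_rings i h
    rw [← reach_iff, he _ _ hne, reach_iff] at h4
    obtain ⟨k, p, t, h0, h1, h2, h3⟩ := h4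
    have hfst : ∀ n, n ≤ k → ((e.symm (p n)).1 : Fin r) = i := by
      intro n hn
      by_cases hx : ((i, x) : Fin r × Fin 9) = e.symm (p n)
      · rw [← hx]
      · have h5 : Pool.Agent.Q52.TR.Reach H.lab (e (i, x)) (p n) := by
          rw [← h0]
          exact Pool.Agent.Q52.TR.reach_prefix h2 h3 n hn
        have h6 : Reach H.lab (e (i, x)) (e (e.symm (p n))) := by
          rw [Equiv.apply_symm_apply, reach_iff]
          exact h5
        rw [← he _ _ hx, reach_iff] at h6
        exact (rings_reach h6).1.symm
    have hpn : ∀ n, n ≤ k → e (i, (e.symm (p n)).2) = p n := by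
      intro n hn
      have : ((i, (e.symm (p n)).2) : Fin r × Fin 9) = e.symm (p n) :=
        Prod.ext (hfst n hn).symm rfl
      rw [this, Equiv.apply_symm_apply]
    refine ⟨k, fun n => (e.symm (p n)).2, t, ?_, ?_, ?_, h3⟩
    · simp [h0]
    · simp [h1]
    · intro n hn
      change t n ∈ H.lab (e (i, (e.symm (p n)).2)) (e (i, (e.symm (p (n + 1))).2))
      rw [hpn n (by omega), hpn (n + 1) (by omega)]
      exact h2 n hn

lemma multiple_le {r : ℕ} {W : Type} [Finite W] (H : DirectedTG W)
    (h : ReachEquivalent (rings r) H) : r ≤ H.multiple := by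
  classical
  obtain ⟨e, he⟩ := h
  choose x y hxy using ring_multiple H e he
  have hinj : Function.Injective fun i : Fin r => ((e (i, x i), e (i, y i)) : W × W) := by
    intro i j hij
    have h1 := e.injective (congrArg Prod.fst hij)
    exact congrArg Prod.fst h1
  have h1 : Set.ncard (Set.range fun i : Fin r => ((e (i, x i), e (i, y i)) : W × W)) = r := by
    rw [← Set.image_univ, Set.ncard_image_of_injective _ hinj, Set.ncard_univ, Nat.card_fin]
  rw [DirectedTG.multiple, ← h1]
  refine Set.ncard_le_ncard ?_ (Set.toFinite _)
  rintro _ ⟨i, rfl⟩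
  exact hxy i

end proof

/-- (1) There is an undirected temporal graph such that no directed proper simple temporal graph is
reachability equivalent to it (non-strict temporal paths).  (2) For every `r` there is an undirected
temporal graph on `9 r` vertices, with at most two labels on each edge, such that all directed temporal
graphs, proper or not, which are reachability equivalent to it have at least `r` arcs with two or
more labels. -/
theorem result :
    (∃ (V : Type) (_ : Finite V) (G : UndirectedTG V), ∀ (W : Type) [Finite W] (H : DirectedTG W),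
      H.IsProper → H.IsSimple → ¬ ReachEquivalent G H) ∧
    ∀ r : ℕ, ∃ G : UndirectedTG (Fin r × Fin 9), (∀ u v, (G.lab u v).card ≤ 2) ∧
      ∀ (W : Type) [Finite W] (H : DirectedTG W), ReachEquivalent G H → r ≤ H.multiple := by
  constructor
  · refine ⟨Fin 1 × Fin 9, inferInstance, rings 1, ?_⟩
    intro W _ H _ hs h
    have h1 := multiple_le H h
    have h2 : {q : W × W | 2 ≤ (H.lab q.1 q.2).card} = ∅ := by
      rw [Set.eq_empty_iff_forall_notMem]
      intro q hq
      have hq' : 2 ≤ (H.lab q.1 q.2).card := hq
      have h3 : (H.lab q.1 q.2).Nonempty := by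
        rw [← Finset.card_pos]
        omega
      have := hs _ _ h3
      omega
    rw [DirectedTG.multiple, h2, Set.ncard_empty] at h1
    omega
  · exact fun r => ⟨rings r, rings_card r, fun W _ H h => multiple_le H h⟩

end Pool.Agent.Results.MP_352b69_co.ManyMultipleLabels
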